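import Pool.Agent.Q33.QPhi.Half

/-! `MP_b125a4_nt`: `∑ [4k+1] ((q;q^2)_k/(q^2;q^2)_k)^3 q^(e_n(k)) ≡ 0 (mod Φ_n(q)^2)` for `n ≡ 1 (mod 4)`. -/

namespace Pool.Agent.Results.MP_b125a4_nt.CyclotomicSquare

open Finset Polynomial Pool.Agent.Q33.QPhi

/-- the `q`-shifted factorial `(a;x)_k = ∏_{j<k} (1 - a x^j)` in `ℚ(q)` -/
noncomputable def qf (a x : RatFunc ℚ) (k : ℕ) : RatFunc ℚ := ∏ j ∈ range k, (1 - a * x ^ j)

/-- `e_n(k) = k (n^2 - 2nk - n - 2)/4` -/
def e (n k : ℕ) : ℤ := (k : ℤ) * ((n : ℤ) ^ 2 - 2 * n * k - n - 2) / 4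

/-- `S_n(q) = ∑_{k=0}^{(n-1)/2} [4k+1] ((q;q^2)_k/(q^2;q^2)_k)^3 q^(e_n(k))` -/
noncomputable def S (n : ℕ) : RatFunc ℚ :=
  ∑ k ∈ range ((n - 1) / 2 + 1), (∑ i ∈ range (4 * k + 1), RatFunc.X ^ i) *
    (qf RatFunc.X (RatFunc.X ^ 2) k / qf (RatFunc.X ^ 2) (RatFunc.X ^ 2) k) ^ 3 * RatFunc.X ^ e n k

/-- the inclusion `ℤ[q] → ℚ(q)` -/
noncomputable def incl : ℤ[X] →+* RatFunc ℚ :=
  (algebraMap ℚ[X] (RatFunc ℚ)).comp (Polynomial.mapRingHom (Int.castRingHom ℚ))

/-- `f ≡ 0 (mod Φ_n(q)^2)`: the denominator of `f` in lowest terms is coprime to `Φ_n`, and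
`Φ_n(q)^2` divides `A` in `ℤ[q]` whenever `f = A/B` with `A, B ∈ ℤ[q]`, `B ≠ 0` -/
def ZeroMod (n : ℕ) (f : RatFunc ℚ) : Prop :=
  IsCoprime f.denom (cyclotomic n ℚ) ∧
    ∀ A B : ℤ[X], B ≠ 0 → f = incl A / incl B → cyclotomic n ℤ ^ 2 ∣ A

/-! ### the substitution `q ↦ x^2` -/

theorem expand_cyc {n : ℕ} (hodd : Odd n) : expand ℚ 2 (cyclotomic n ℚ) = cyclotomic (n * 2) ℚ * cyclotomic n ℚ :=
  cyclotomic_expand_eq_cyclotomic_mul Nat.prime_two (fun h => (Nat.not_even_iff_odd.2 hodd) (even_iff_two_dvd.2 h)) ℚ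

theorem coprime_expand {a b : ℚ[X]} (h : IsCoprime a b) : IsCoprime (expand ℚ 2 a) (expand ℚ 2 b) :=
  h.map (expand ℚ 2 : ℚ[X] →+* ℚ[X])

theorem dvd_expand_one {n : ℕ} (hn : 0 < n) (hodd : Odd n) {a : ℚ[X]} (h : cyclotomic n ℚ ∣ expand ℚ 2 a) :
    cyclotomic n ℚ ∣ a := by
  have hirr : Irreducible (cyclotomic n ℚ) := cyclotomic.irreducible_rat hn
  by_contra hc
  have h1 : IsCoprime (cyclotomic n ℚ) a := hirr.coprime_iff_not_dvd.2 hc
  have h2 := coprime_expand h1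
  rw [expand_cyc hodd] at h2
  have h3 : IsCoprime (cyclotomic n ℚ) (expand ℚ 2 a) := h2.of_mul_left_right
  exact hirr.not_isUnit (h3.isUnit_of_dvd' (dvd_refl _) h)

theorem dvd_expand {n : ℕ} (hn : 0 < n) (hodd : Odd n) (k : ℕ) : ∀ a : ℚ[X],
    cyclotomic n ℚ ^ k ∣ expand ℚ 2 a → cyclotomic n ℚ ^ k ∣ a := by
  induction k with
  | zero =>
    intro a _
    rw [pow_zero]
    exact one_dvd a
  | succ k ih =>
    intro a h
    obtain ⟨a', rfl⟩ := dvd_expand_one hn hodd ((dvd_pow_self _ (by omega)).trans h)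
    rw [map_mul, expand_cyc hodd, pow_succ'] at h
    rw [pow_succ']
    apply mul_dvd_mul_left
    apply ih
    have h1 : cyclotomic n ℚ ^ k ∣ cyclotomic (n * 2) ℚ * expand ℚ 2 a' := by
      apply (mul_dvd_mul_iff_left (cyclotomic_ne_zero n ℚ)).1
      refine h.trans (dvd_of_eq ?_)
      ring
    have h2 : IsCoprime (cyclotomic n ℚ ^ k) (cyclotomic (n * 2) ℚ) :=
      (cyclotomic.isCoprime_rat (by omega)).pow_left
    exact h2.dvd_of_dvd_mul_left h1

/-- the substitution -/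
noncomputable def rho : RatFunc ℚ →+* RatFunc ℚ :=
  IsFractionRing.lift (A := ℚ[X]) (K := RatFunc ℚ) (L := RatFunc ℚ)
    (g := (algebraMap ℚ[X] (RatFunc ℚ)).comp (expand ℚ 2 : ℚ[X] →+* ℚ[X]))
    ((RatFunc.algebraMap_injective ℚ).comp (expand_injective two_pos))

theorem rho_algebraMap (f : ℚ[X]) : rho (algebraMap ℚ[X] (RatFunc ℚ) f) = algebraMap ℚ[X] (RatFunc ℚ) (expand ℚ 2 f) :=
  IsFractionRing.lift_algebraMap _ f

theorem rho_X : rho RatFunc.X = RatFunc.X ^ 2 := by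
  rw [← RatFunc.algebraMap_X, rho_algebraMap, expand_X, map_pow]

theorem rho_incl (A : ℤ[X]) : rho (incl A) = incl (expand ℤ 2 A) := by
  unfold incl
  rw [RingHom.comp_apply, RingHom.comp_apply, rho_algebraMap, coe_mapRingHom, map_expand]

theorem transfer {n : ℕ} [NeZero n] (hodd : Odd n) (f : RatFunc ℚ) (s : O n)
    (hs : algebraMap ℚ[X] (O n) (cyclotomic n ℚ) ^ 2 ∣ s) (h : psi n s = rho f) : ZeroMod n f := by
  have hn : 0 < n := NeZero.pos n
  have hirr : Irreducible (cyclotomic n ℚ) := cyclotomic.irreducible_rat hn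
  obtain ⟨h1, h2⟩ := conclude n s hs
  constructor
  · rw [isCoprime_comm, hirr.coprime_iff_not_dvd]
    intro hd
    have e1 : (psi n s).num * expand ℚ 2 f.denom = (psi n s).denom * expand ℚ 2 f.num := by
      apply RatFunc.algebraMap_injective ℚ
      have a1 := RatFunc.num_div_denom (psi n s)
      have a2 := congrArg rho (RatFunc.num_div_denom f)
      rw [map_div₀, rho_algebraMap, rho_algebraMap, ← h, ← a1] at a2
      have b1 : algebraMap ℚ[X] (RatFunc ℚ) (psi n s).denom ≠ 0 := RatFunc.algebraMap_ne_zero (RatFunc.denom_ne_zero _)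
      have b2 : algebraMap ℚ[X] (RatFunc ℚ) (expand ℚ 2 f.denom) ≠ 0 :=
        RatFunc.algebraMap_ne_zero ((expand_ne_zero two_pos).2 (RatFunc.denom_ne_zero _))
      rw [div_eq_div_iff b2 b1] at a2
      rw [map_mul, map_mul, ← a2]
      ring
    have e2 : cyclotomic n ℚ ∣ expand ℚ 2 f.denom := by
      obtain ⟨c, hc⟩ := hd
      rw [hc, map_mul, expand_cyc hodd]
      exact Dvd.dvd.mul_right (dvd_mul_left _ _) _
    have e4 : cyclotomic n ℚ ∣ expand ℚ 2 f.num := by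
      apply h1.symm.dvd_of_dvd_mul_left
      rw [← e1]
      exact e2.mul_left _
    exact hirr.not_isUnit ((coprime_expand (RatFunc.isCoprime_num_denom f)).isUnit_of_dvd' e4 e2)
  · intro A B hB hAB
    have h3 : psi n s = Q33.QPhi.incl (expand ℤ 2 A) / Q33.QPhi.incl (expand ℤ 2 B) := by
      rw [h, hAB, map_div₀, rho_incl, rho_incl]
      rfl
    have h4 := h2 (expand ℤ 2 A) (expand ℤ 2 B) ((expand_ne_zero two_pos).2 hB) h3
    have h5 : cyclotomic n ℚ ^ 2 ∣ expand ℚ 2 (A.map (Int.castRingHom ℚ)) := by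
      have h6 := Polynomial.map_dvd (Int.castRingHom ℚ) h4
      rwa [Polynomial.map_pow, map_cyclotomic, map_expand] at h6
    have h6 := dvd_expand hn hodd 2 _ h5
    have h7 : ((cyclotomic n ℤ) ^ 2).map (Int.castRingHom ℚ) ∣ A.map (Int.castRingHom ℚ) := by
      rw [Polynomial.map_pow, map_cyclotomic]
      exact h6
    exact (Polynomial.map_dvd_map _ Int.cast_injective ((cyclotomic.monic n ℤ).pow 2)).1 h7

/-! ### the sum in the local ring -/

theorem anti_O {n : ℕ} [NeZero n] (hodd : Odd n) (h4 : n % 4 = 1) {N : ℕ} (hN : n = 2 * N + 1) (qi : O n)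
    (hqi : qO n * qi = 1) : algebraMap ℚ[X] (O n) (cyclotomic n ℚ) ∣
      ∑ k ∈ range (N + 1), ((k * (N - k) : ℕ) : O n) * (qi ^ k * (1 - qO n ^ (8 * k + 2)) * AO n 2 k ^ 3) := by
  set I : Ideal (O n) := Ideal.span {algebraMap ℚ[X] (O n) (cyclotomic n ℚ)} with hI
  have hmk : ∀ s : O n, Ideal.Quotient.mk I s = 0 ↔ algebraMap ℚ[X] (O n) (cyclotomic n ℚ) ∣ s := by
    intro s
    rw [Ideal.Quotient.eq_zero_iff_mem, hI, Ideal.mem_span_singleton]
  have hx : Ideal.Quotient.mk I (qO n) ^ n = 1 := by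
    have h : Ideal.Quotient.mk I (qO n ^ n - 1) = 0 := by
      rw [hmk]
      have h2 := map_dvd (algebraMap ℚ[X] (O n)) (cyclotomic.dvd_X_pow_sub_one n ℚ)
      rw [map_sub, map_pow, map_one] at h2
      exact h2
    rw [map_sub, map_one, map_pow] at h
    linear_combination h
  have hu : ∀ j, ¬ n ∣ j → IsUnit (1 - Ideal.Quotient.mk I (qO n) ^ j) := by
    intro j hj
    have h := (unit_sub n j hj).map (Ideal.Quotient.mk I)
    rwa [map_sub, map_one, map_pow] at h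
  have h2 : IsUnit (2 : O n ⧸ I) := by
    have h : IsUnit (algebraMap ℚ (O n ⧸ I) 2) := (isUnit_iff_ne_zero.2 two_ne_zero).map _
    rwa [map_ofNat] at h
  have hA : ∀ k, Ideal.Quotient.mk I (AO n 2 (k + 1)) * (1 - Ideal.Quotient.mk I (qO n) ^ (4 * (k + 1)))
      = Ideal.Quotient.mk I (AO n 2 k) * (1 - Ideal.Quotient.mk I (qO n) ^ (2 * (2 * k + 1))) := by
    intro k
    have h := congrArg (Ideal.Quotient.mk I) (AO_rec n hodd two_pos k)
    rw [map_mul, map_mul, map_sub, map_sub, map_one, map_pow, map_pow] at h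
    exact h
  have hfin := anti (Ideal.Quotient.mk I (qO n)) (Ideal.Quotient.mk I qi) (by rw [← map_mul, hqi, map_one]) n N hN
    hx hu (fun k => Ideal.Quotient.mk I (AO n 2 k)) (by
      show Ideal.Quotient.mk I (AO n 2 0) = 1
      rw [AO_zero, map_one]) hA
    (Nat.even_iff.2 (by omega)) h2
  rw [← hmk, ← hfin, map_sum]
  refine sum_congr rfl fun k _ => ?_
  rw [map_mul, map_natCast, map_mul, map_mul, map_sub, map_one, map_pow, map_pow, map_pow]

theorem main_O {n : ℕ} [NeZero n] (hodd : Odd n) (hn1 : 1 < n) (h4 : n % 4 = 1) {N : ℕ} (hN : n = 2 * N + 1)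
    (qi : O n) (hqi : qO n * qi = 1) : algebraMap ℚ[X] (O n) (cyclotomic n ℚ) ^ 2 ∣
      ∑ k ∈ range (N + 1), (qO n ^ n) ^ (k * (N - k)) * (qi ^ k * (1 - qO n ^ (8 * k + 2)) * AO n 2 k ^ 3) := by
  have hA2 := isA_AO n hodd (s := 2) two_pos N hN
  have h20 : mkB n (AO n 2 0) = 1 := by rw [AO_zero, map_one]
  have hpq : ∀ j : ℕ, qO n ^ j * qi ^ j = 1 := by
    intro j
    rw [← mul_pow, hqi, one_pow]
  have hc4 : n.Coprime 4 := by
    have h7 : n.Coprime 2 := by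
      rw [hN]
      simp
    exact Nat.Coprime.mul_right h7 h7
  have hunit : ∀ k, k ≤ N → IsUnit (poch (qO n ^ 4) (qO n ^ 4) k *
      (poch (qO n ^ 4 * qi ^ (2 * n)) (qO n ^ 4) k * poch (qO n ^ 4 * qO n ^ (2 * n)) (qO n ^ 4) k)) := by
    intro k hk
    unfold poch
    refine IsUnit.mul ?_ (IsUnit.mul ?_ ?_)
    · apply Finset.prod_induction _ IsUnit (fun _ _ => IsUnit.mul) isUnit_one
      intro l hl
      rw [mem_range] at hl
      rw [← pow_succ', ← pow_mul]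
      apply unit_sub
      intro h3
      have := Nat.le_of_dvd (by omega) (hc4.dvd_of_dvd_mul_left h3)
      omega
    · apply Finset.prod_induction _ IsUnit (fun _ _ => IsUnit.mul) isUnit_one
      intro l hl
      rw [mem_range] at hl
      have h1 : qO n ^ 4 * qi ^ (2 * n) * (qO n ^ 4) ^ l * qO n ^ (2 * n - 4 * (l + 1)) = 1 := by
        have e1 : qO n ^ 4 * (qO n ^ 4) ^ l * qO n ^ (2 * n - 4 * (l + 1)) = qO n ^ (2 * n) := by
          rw [← pow_mul, ← pow_add, ← pow_add]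
          congr 1
          omega
        linear_combination qi ^ (2 * n) * e1 + hpq (2 * n)
      have h2 : 1 - qO n ^ 4 * qi ^ (2 * n) * (qO n ^ 4) ^ l
          = -(qO n ^ 4 * qi ^ (2 * n) * (qO n ^ 4) ^ l) * (1 - qO n ^ (2 * n - 4 * (l + 1))) := by
        linear_combination -h1
      rw [h2]
      refine (IsUnit.of_mul_eq_one _ h1).neg.mul (unit_sub n _ ?_)
      intro h3
      have h5 : n ∣ 4 * (l + 1) := by
        have h5 : 4 * (l + 1) = 2 * n - (2 * n - 4 * (l + 1)) := by omega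
        rw [h5]
        exact Nat.dvd_sub (dvd_mul_left n 2) h3
      have := Nat.le_of_dvd (by omega) (hc4.dvd_of_dvd_mul_left h5)
      omega
    · apply Finset.prod_induction _ IsUnit (fun _ _ => IsUnit.mul) isUnit_one
      intro l hl
      rw [mem_range] at hl
      have e1 : qO n ^ 4 * qO n ^ (2 * n) * (qO n ^ 4) ^ l = qO n ^ (4 * (l + 1) + 2 * n) := by
        rw [← pow_mul, ← pow_add, ← pow_add]
        congr 1
        ring
      rw [e1]
      apply unit_sub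
      intro h3
      have h5 : n ∣ 4 * (l + 1) := (Nat.dvd_add_left (dvd_mul_left n 2)).1 h3
      have := Nat.le_of_dvd (by omega) (hc4.dvd_of_dvd_mul_left h5)
      omega
  have hper0 := period_O1 n h4 hn1 hN qi hqi (fun k => Ring.inverse (poch (qO n ^ 4) (qO n ^ 4) k *
      (poch (qO n ^ 4 * qi ^ (2 * n)) (qO n ^ 4) k * poch (qO n ^ 4 * qO n ^ (2 * n)) (qO n ^ 4) k)))
      (fun k hk => Ring.inverse_mul_cancel _ (hunit k hk))
  rw [← mkB_eq_zero] at hper0
  have hper := half_map (mkB n) (data n N hN) (qO n) qi rfl hA2 h20 hqi _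
    (fun k hk => Ring.inverse_mul_cancel _ (hunit k hk)) hper0
  rw [← mkB_eq_zero, map_sum]
  obtain ⟨y, hy⟩ := anti_O hodd h4 hN qi hqi
  obtain ⟨z, hz⟩ : algebraMap ℚ[X] (O n) (cyclotomic n ℚ) ∣ qO n ^ n - 1 := by
    have h2 := map_dvd (algebraMap ℚ[X] (O n)) (cyclotomic.dvd_X_pow_sub_one n ℚ)
    rw [map_sub, map_pow, map_one] at h2
    exact h2
  have hez : mkB n ((qO n ^ n - 1) * ∑ k ∈ range (N + 1), ((k * (N - k) : ℕ) : O n) *
      (qi ^ k * (1 - qO n ^ (8 * k + 2)) * AO n 2 k ^ 3)) = 0 := by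
    rw [mkB_eq_zero, hy, hz]
    exact ⟨z * y, by ring⟩
  have he2 : (mkB n (qO n) ^ n - 1) ^ 2 = 0 := (data n N hN).he
  have hterm : ∀ k ∈ range (N + 1), mkB n ((qO n ^ n) ^ (k * (N - k)) *
      (qi ^ k * (1 - qO n ^ (8 * k + 2)) * AO n 2 k ^ 3))
      = mkB n qi ^ k * (1 - mkB n (qO n) ^ (8 * k + 2)) * mkB n (AO n 2 k) ^ 3
        + mkB n ((qO n ^ n - 1) * (((k * (N - k) : ℕ) : O n) *
      (qi ^ k * (1 - qO n ^ (8 * k + 2)) * AO n 2 k ^ 3))) := by
    intro k _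
    have h5 := one_add_pow (B := BO n) (e := mkB n (qO n) ^ n - 1) he2 (k * (N - k))
    rw [add_sub_cancel] at h5
    simp only [map_mul, map_sub, map_pow, map_one, map_natCast]
    rw [h5]
    ring
  rw [sum_congr rfl hterm, sum_add_distrib, ← map_sum, ← mul_sum, hez, add_zero]
  exact hper

theorem four_e {n N k : ℕ} (h4 : n % 4 = 1) (hN : n = 2 * N + 1) (hk : k ≤ N) :
    2 * e n k = (n : ℤ) * ((k * (N - k) : ℕ) : ℤ) - k := by
  obtain ⟨M, hM⟩ : ∃ M, N = 2 * M := ⟨N / 2, by omega⟩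
  obtain ⟨j, hj⟩ : ∃ j, N = k + j := ⟨N - k, by omega⟩
  have hNk : N - k = j := by omega
  rw [hNk]
  have h1 : (n : ℤ) ^ 2 - 2 * n * k - n - 2 = 2 * (n * j - 1) := by
    rw [hN, hj]
    push_cast
    ring
  have h2 : ∃ c : ℤ, (k : ℤ) * (n * j - 1) = 2 * c := by
    rcases Nat.even_or_odd k with he | ho
    · obtain ⟨a, ha⟩ := he
      refine ⟨(a : ℤ) * (n * j - 1), ?_⟩
      rw [ha]
      push_cast
      ring
    · obtain ⟨a, ha⟩ := ho
      obtain ⟨b, hb⟩ : ∃ b, j = 2 * b + 1 := ⟨j / 2, by omega⟩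
      refine ⟨(k : ℤ) * (2 * N * b + N + b), ?_⟩
      rw [hb, hN]
      push_cast
      ring
  obtain ⟨c, hc⟩ := h2
  have h3 : e n k = c := by
    unfold e
    rw [h1, show (k : ℤ) * (2 * (n * j - 1)) = 4 * c by linear_combination 2 * hc]
    exact Int.mul_ediv_cancel_left c (by norm_num)
  rw [h3]
  push_cast
  linear_combination -hc

/-- **Theorem.** For every `n > 1` with `n ≡ 1 (mod 4)`, `S_n(q) ≡ 0 (mod Φ_n(q)^2)`; and for `n = 1`, where
`S_1(q) = 1`, the congruence fails. -/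
theorem result : (∀ n : ℕ, 1 < n → n % 4 = 1 → ZeroMod n (S n)) ∧ ¬ ZeroMod 1 (S 1) := by
  constructor
  · intro n hn1 h4
    have : NeZero n := ⟨by omega⟩
    obtain ⟨N, hN⟩ : ∃ N, n = 2 * N + 1 := ⟨n / 2, by omega⟩
    have hodd : Odd n := Nat.odd_iff.2 (by omega)
    obtain ⟨qi, hqi⟩ := (unit_q n (by omega)).exists_right_inv
    obtain ⟨j, hj⟩ := (unit_sub n 2 (fun h => by
      have := Nat.le_of_dvd (by norm_num) h
      omega)).exists_right_inv
    have hmain := main_O hodd hn1 h4 hN qi hqi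
    apply transfer hodd (S n) (j * ∑ k ∈ range (N + 1), (qO n ^ n) ^ (k * (N - k)) *
      (qi ^ k * (1 - qO n ^ (8 * k + 2)) * AO n 2 k ^ 3)) (Dvd.dvd.mul_left hmain j)
    have hX0 : (RatFunc.X : RatFunc ℚ) ≠ 0 := RatFunc.X_ne_zero
    have hqi1 : psi n qi = RatFunc.X⁻¹ := by
      have h1 := congrArg (psi n) hqi
      rw [map_mul, map_one, psi_qO] at h1
      exact eq_inv_of_mul_eq_one_right h1
    have hj1 : psi n j * (1 - RatFunc.X ^ 2) = 1 := by
      have h1 := congrArg (psi n) hj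
      rw [map_mul, map_one, map_sub, map_one, map_pow, psi_qO] at h1
      rw [mul_comm]
      exact h1
    unfold S
    rw [show (n - 1) / 2 = N by omega, map_mul, map_sum, map_sum, mul_sum]
    refine sum_congr rfl fun k hk => ?_
    rw [mem_range] at hk
    have he := four_e h4 hN (show k ≤ N by omega)
    have hz : rho (RatFunc.X ^ e n k) = (RatFunc.X ^ n) ^ (k * (N - k)) * (RatFunc.X⁻¹) ^ k := by
      rw [map_zpow₀, rho_X, ← zpow_natCast (RatFunc.X : RatFunc ℚ) 2, ← zpow_mul, Nat.cast_ofNat, he, zpow_sub₀ hX0,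
        zpow_mul, zpow_natCast, zpow_natCast, zpow_natCast, div_eq_mul_inv, inv_pow]
    have hgeom : (1 - (RatFunc.X : RatFunc ℚ) ^ 2) * ∑ i ∈ range (4 * k + 1), (RatFunc.X ^ 2) ^ i
        = 1 - RatFunc.X ^ (8 * k + 2) := by
      have h := geom_sum_mul ((RatFunc.X : RatFunc ℚ) ^ 2) (4 * k + 1)
      have h2 : ((RatFunc.X : RatFunc ℚ) ^ 2) ^ (4 * k + 1) = RatFunc.X ^ (8 * k + 2) := by
        rw [← pow_mul]
        congr 1
        ring
      rw [h2] at h
      linear_combination -h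
    have hqf : ∀ a x : RatFunc ℚ, rho (qf a x k) = poch (rho a) (rho x) k := by
      intro a x
      unfold qf poch
      rw [map_prod]
      refine prod_congr rfl fun l _ => ?_
      rw [map_sub, map_one, map_mul, map_pow]
    rw [map_mul, map_mul, map_pow, map_mul, map_mul, map_pow, map_pow, map_sub, map_one, map_pow, psi_qO, hqi1,
      map_pow, psi_AO n hodd two_pos k, map_mul rho, map_pow rho, map_div₀, hqf, hqf, hz, map_sum]
    simp only [map_pow, rho_X]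
    have h24 : ((RatFunc.X : RatFunc ℚ) ^ 2) ^ 2 = RatFunc.X ^ 4 := by ring
    rw [← hgeom, h24, show 2 * 2 = 4 by rfl]
    linear_combination ((RatFunc.X ^ n) ^ (k * (N - k)) * (RatFunc.X⁻¹) ^ k *
      (∑ i ∈ range (4 * k + 1), (RatFunc.X ^ 2) ^ i) *
      (poch (RatFunc.X ^ 2) (RatFunc.X ^ 4) k / poch (RatFunc.X ^ 4) (RatFunc.X ^ 4) k) ^ 3) * hj1
  · rintro ⟨_, h⟩
    have h1 : S 1 = incl 1 / incl 1 := by
      rw [map_one, div_one]
      unfold S e qf
      simp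
    have h2 := h 1 1 one_ne_zero h1
    have h3 : IsUnit (cyclotomic 1 ℤ) := isUnit_of_dvd_one ((dvd_pow_self _ two_ne_zero).trans h2)
    rw [cyclotomic_one] at h3
    exact not_isUnit_X_sub_C (1 : ℤ) (by rwa [C_1])

end Pool.Agent.Results.MP_b125a4_nt.CyclotomicSquare
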